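import Mathlib
import Pool.Agent.MP_6b7ec3_an.Sh.Top

/-!
For every `η < 1/2`, a relatively compact domain with smooth Levi-flat boundary in a complex
surface, with Diederich-Fornaess exponent `η` (in the strong sense, with strict
plurisubharmonicity) and with a non-constant bounded holomorphic function.

The domain is a flat disc bundle over a genus two curve whose holonomy lies in a Fuchsian group of
the second kind generated by three half turns; the base is the double of a hyperbolic one-holed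
torus with a short boundary geodesic.
-/

set_option autoImplicit false

open Set Topology Filter
open scoped ContDiff Manifold

namespace Pool.Agent.Results.MP_6b7ec3_an.SharpIndex

/-- The Levi form of a real function `u` on `ℂ²` at the point `p` on the vector `v`, that is
`∑ u_{z_i \bar z_j}(p) v_i \bar v_j`, written with the real Hessian:
`(D²u(p)(v, v) + D²u(p)(iv, iv)) / 4`. -/
noncomputable def leviForm (u : ℂ × ℂ → ℝ) (p v : ℂ × ℂ) : ℝ :=
  (fderiv ℝ (fderiv ℝ u) p v v + fderiv ℝ (fderiv ℝ u) p (Complex.I • v) (Complex.I • v)) / 4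

/-- `ρ` is a smooth defining function for `Ω`: it is `C^∞` on an open neighbourhood `U` of the
closure of `Ω`, `Ω = {ρ < 0}` in `U`, and `dρ ≠ 0` on the boundary of `Ω`. -/
def IsDefiningFunction {X : Type} [TopologicalSpace X] [ChartedSpace (ℂ × ℂ) X]
    (Ω : Set X) (ρ : X → ℝ) : Prop :=
  ∃ U : Set X, IsOpen U ∧ closure Ω ⊆ U ∧ ContMDiffOn 𝓘(ℝ, ℂ × ℂ) 𝓘(ℝ, ℝ) ∞ ρ U ∧
    Ω = {x | x ∈ U ∧ ρ x < 0} ∧ ∀ x ∈ frontier Ω, mfderiv 𝓘(ℝ, ℂ × ℂ) 𝓘(ℝ, ℝ) ρ x ≠ 0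

/-- The boundary of `Ω`, with defining function `ρ`, is Levi-flat: in every chart, at every
boundary point, the Levi form of `ρ` vanishes on the complex tangent space
`{v | dρ(v) = 0, dρ(iv) = 0}` of the boundary. -/
def IsLeviFlat {X : Type} [TopologicalSpace X] [ChartedSpace (ℂ × ℂ) X]
    (Ω : Set X) (ρ : X → ℝ) : Prop :=
  ∀ e ∈ atlas (ℂ × ℂ) X, ∀ x ∈ frontier Ω ∩ e.source, ∀ v : ℂ × ℂ,
    fderiv ℝ (ρ ∘ e.symm) (e x) v = 0 → fderiv ℝ (ρ ∘ e.symm) (e x) (Complex.I • v) = 0 →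
      leviForm (ρ ∘ e.symm) (e x) v = 0

/-- `u` is strictly plurisubharmonic on `W`: in every chart, at every point of `W`, it is `C²`
and its Levi form is positive definite. -/
def StrictlyPshOn {X : Type} [TopologicalSpace X] [ChartedSpace (ℂ × ℂ) X]
    (u : X → ℝ) (W : Set X) : Prop :=
  ∀ e ∈ atlas (ℂ × ℂ) X, ∀ x ∈ W ∩ e.source, ContDiffAt ℝ 2 (u ∘ e.symm) (e x) ∧
    ∀ v : ℂ × ℂ, v ≠ 0 → 0 < leviForm (u ∘ e.symm) (e x) v

open Pool.Agent.MP_6b7ec3_an Pool.Agent.MP_6b7ec3_an.Sh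

lemma leviForm_eq (u : ℂ × ℂ → ℝ) (p v : ℂ × ℂ) : leviForm u p v = Lap u p v / 4 := rfl

/-- For every `0 < η < 1/2` there are a connected complex surface `X` and a relatively compact
domain `Ω ⊆ X` with a smooth defining function `ρ` such that the boundary is Levi-flat,
`-(-ρ) ^ η` is strictly plurisubharmonic in `Ω` near the boundary, and `Ω` carries a non-constant
bounded holomorphic function. -/
theorem result (η : ℝ) (h0 : 0 < η) (h1 : η < 1 / 2) :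
    ∃ (X : Type) (_ : TopologicalSpace X) (_ : ChartedSpace (ℂ × ℂ) X),
      T2Space X ∧ SecondCountableTopology X ∧ ConnectedSpace X ∧ IsManifold 𝓘(ℂ, ℂ × ℂ) ω X ∧
      ∃ (Ω : Set X) (ρ : X → ℝ),
        IsOpen Ω ∧ IsConnected Ω ∧ IsCompact (closure Ω) ∧ (frontier Ω).Nonempty ∧
        IsDefiningFunction Ω ρ ∧ IsLeviFlat Ω ρ ∧
        (∃ V : Set X, IsOpen V ∧ frontier Ω ⊆ V ∧
          StrictlyPshOn (fun x => -(-ρ x) ^ η) (Ω ∩ V)) ∧
        ∃ f : X → ℂ, MDifferentiableOn 𝓘(ℂ, ℂ × ℂ) 𝓘(ℂ, ℂ) f Ω ∧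
          (∃ C : ℝ, ∀ x ∈ Ω, ‖f x‖ ≤ C) ∧ ∃ x ∈ Ω, ∃ y ∈ Ω, f x ≠ f y := by
  obtain ⟨γ, Λ, h⟩ := exists_par (s := η / (1 - η)) (div_pos h0 (by linarith))
    ((div_lt_one (by linarith)).2 (by linarith))
  refine ⟨h.G.X, inferInstance, inferInstance, inferInstance, inferInstance, h.connectedSpace,
    inferInstance, h.Ω, h.ρ, isOpen_lt h.contMDiff_ρ.continuous continuous_const, h.isConnected_Ω,
    h.isCompact_closure_Ω, h.frontier_nonempty, ?_, ?_, ?_, h.exists_f⟩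
  · exact ⟨univ, isOpen_univ, subset_univ _, h.contMDiff_ρ.contMDiffOn, by simp [Par.Ω],
      fun x hx => h.mfderiv_ρ_ne (h.frontier_sub hx)⟩
  · rintro _ ⟨i, rfl⟩ x ⟨hx, hs⟩ v h2 h3
    obtain ⟨p, hp, e1, e2⟩ := h.G.exists_of_source hs
    have h4 := h.frontier_sub hx
    rw [e1, h.ρ_j i hp, rho_eq_zero_iff] at h4
    rw [e2, (h.ρ_ev i hp).fderiv_eq] at h2 h3
    rw [e2, leviForm_eq, Lap_congr (h.ρ_ev i hp), rho_flat (h.cd_thc2 _ hp) h4 h2 h3, zero_div]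
  · obtain ⟨ε, h3, h4⟩ := h.psh h0 (by linarith)
    refine ⟨{x | -ε < h.ρ x}, isOpen_lt continuous_const h.contMDiff_ρ.continuous,
      fun x hx => ?_, ?_⟩
    · change -ε < h.ρ x
      rw [h.frontier_sub hx]
      linarith
    · rintro _ ⟨i, rfl⟩ x ⟨⟨hx1, hx2⟩, hs⟩
      obtain ⟨p, hp, e1, e2⟩ := h.G.exists_of_source hs
      obtain ⟨a3, a4⟩ := h4 i.2 p hp (by rw [← h.ρ_j i hp, ← e1]; exact hx1)
        (by rw [← h.ρ_j i hp, ← e1]; exact hx2)
      have hev := (h.ρ_ev i hp).fun_comp fun t => -(-t) ^ η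
      rw [e2]
      refine ⟨a3.congr_of_eventuallyEq hev, fun v hv => ?_⟩
      exact div_pos ((a4 v hv).trans_eq (Lap_congr hev v).symm) four_pos

/-- The posed question Q1: a domain with Levi-flat boundary, positive index and a non-constant
bounded holomorphic function. -/
theorem q1 :
    ∃ (X : Type) (_ : TopologicalSpace X) (_ : ChartedSpace (ℂ × ℂ) X),
      T2Space X ∧ SecondCountableTopology X ∧ ConnectedSpace X ∧ IsManifold 𝓘(ℂ, ℂ × ℂ) ω X ∧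
      ∃ (Ω : Set X) (ρ : X → ℝ),
        IsOpen Ω ∧ IsConnected Ω ∧ IsCompact (closure Ω) ∧ (frontier Ω).Nonempty ∧
        IsDefiningFunction Ω ρ ∧ IsLeviFlat Ω ρ ∧
        (∃ η : ℝ, 0 < η ∧ η ≤ 1 ∧ ∃ V : Set X, IsOpen V ∧ frontier Ω ⊆ V ∧
          StrictlyPshOn (fun x => -(-ρ x) ^ η) (Ω ∩ V)) ∧
        ∃ f : X → ℂ, MDifferentiableOn 𝓘(ℂ, ℂ × ℂ) 𝓘(ℂ, ℂ) f Ω ∧
          (∃ C : ℝ, ∀ x ∈ Ω, ‖f x‖ ≤ C) ∧ ∃ x ∈ Ω, ∃ y ∈ Ω, f x ≠ f y := by
  obtain ⟨X, _, _, h1, h2, h3, h4, Ω, ρ, h5, h6, h7, h8, h9, h10, h11, h12⟩ :=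
    result (1 / 4) (by norm_num) (by norm_num)
  exact ⟨X, _, _, h1, h2, h3, h4, Ω, ρ, h5, h6, h7, h8, h9, h10,
    ⟨1 / 4, by norm_num, by norm_num, h11⟩, h12⟩

end Pool.Agent.Results.MP_6b7ec3_an.SharpIndex
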